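import Pool.Agent.Helper22_LLG.Stmt

/-!
Squad LLG, module TOP: the induction over the rounds
-/

set_option autoImplicit false

namespace Pool.Agent.LLG.H99

open SimpleGraph Pool.Agent.LAG Pool.Agent.LLG

theorem big_mono {V : Type} {G : SimpleGraph V} {g g' : ℕ} (h : g ≤ g') (hG : Big G g') :
    Big G g := by
  intro z m hz
  exact lt_of_le_of_lt h (hG z m hz)

theorem good_mono {k g g' q : ℕ} (h : g ≤ g') (hG : Good k g q) : Good k g' q := by
  intro V _ A R Q hS
  exact hG V A R Q ⟨hS.le, hS.m2, hS.m3, big_mono h hS.big, hS.deg, hS.sep, hS.bal⟩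

theorem top (hStep : StepStmt) (hPull : PullStmt) (hBase : BaseStmt) (hStart : StartStmt)
    (hNums : NumsStmt) : TopStmt := by
  obtain ⟨C, K0, hN⟩ := hNums
  refine ⟨max C 8000, 2 * K0 + 2, ?_⟩
  intro V _ G Δ hΔ hdeg hbig
  obtain ⟨kf, h, qm, T, r, h1, h2, h3, h4, h5⟩ := hN (Δ / 2) (by omega)
  have key : ∀ n k : ℕ, k ≤ n → 1 ≤ k → k ≤ Δ / 2 → ∀ q, q + r k ≤ qm →
      Good k (C * (Nat.log 2 (Nat.log 2 (Δ / 2)) + 1)) q := by
    intro n
    induction n with
    | zero => intro k hk h1k; omega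
    | succ n ih =>
      intro k hkn hk1 hkK q hq
      by_cases hkf : k ≤ kf
      · refine good_mono h2 (hBase k h q hk1 ?_)
        refine le_trans ?_ h3
        refine Nat.mul_le_mul le_rfl (Nat.pow_le_pow_left (by omega) _)
      · obtain ⟨h6, h7⟩ := h5 k (by omega) hkK
        have hR := h7 q hq
        have hlt : 2 * T k < k := hR.1
        obtain ⟨b, m, s, h', hH, m', a, l, Tm, L, Nc, η, h8, h9, h10, h11, -⟩ := hR.2
        have hT : 1 ≤ T k := h11.2.1
        have hg : 400 ≤ C * (Nat.log 2 (Nat.log 2 (Δ / 2)) + 1) := by omega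
        refine hPull k _ q hk1 hg (hStep k (T k) _ q hR ?_)
        exact ih (k - 2 * T k) (by omega) (by omega) (by omega) (q + 3) (by omega)
  have hK := key (Δ / 2) (Δ / 2) le_rfl (by omega) le_rfl 1 (by omega)
  have hle : C * (Nat.log 2 (Nat.log 2 (Δ / 2)) + 1) ≤
      max C 8000 * (Nat.log 2 (Nat.log 2 Δ) + 1) := by
    refine Nat.mul_le_mul (le_max_left _ _) ?_
    have : Nat.log 2 (Nat.log 2 (Δ / 2)) ≤ Nat.log 2 (Nat.log 2 Δ) :=
      Nat.log_mono_right (Nat.log_mono_right (Nat.div_le_self _ _))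
    omega
  refine hStart V G Δ _ ?_ hbig hdeg (good_mono hle hK)
  have h12 : 8000 ≤ max C 8000 := le_max_right _ _
  nlinarith

end Pool.Agent.LLG.H99
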